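import Pool.Agent.Rad.Merge

/-!
# Reset words along a chain of congruences
-/

set_option autoImplicit false

namespace Pool.Agent.Rad

open Finset

variable {Q A : Type*}

/-- The automaton on the classes. -/
def quoAct {δ : Q → A → Q} {r : Setoid Q} (hr : IsCong δ r) (c : Quotient r) (a : A) : Quotient r :=
  Quotient.map (fun p => δ p a) (fun p q h => hr p q a h) c

theorem quoAct_mk {δ : Q → A → Q} {r : Setoid Q} (hr : IsCong δ r) (p : Q) (a : A) :
    quoAct hr (Quotient.mk r p) a = Quotient.mk r (δ p a) := rfl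

theorem run_quoAct {δ : Q → A → Q} {r : Setoid Q} (hr : IsCong δ r) (p : Q) (w : List A) :
    run (quoAct hr) (Quotient.mk r p) w = Quotient.mk r (run δ p w) :=
  (run_semiconj (δ := δ) (π := Quotient.mk r) (δD := quoAct hr) (fun _ _ => rfl) w p).symm

/-- The projection between the sets of classes. -/
def proj {r s : Setoid Q} (h : r ≤ s) (c : Quotient r) : Quotient s :=
  Quotient.map id (fun _ _ hpq => h hpq) c

theorem fib_proj [Fintype Q] {r s : Setoid Q} (h : r ≤ s) [Fintype (Quotient r)]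
    [DecidableEq (Quotient s)] (B : Quotient s) : fib (proj h) B = parts r s B := by
  classical
  unfold fib parts
  rw [Set.ncard_eq_toFinset_card']
  apply congrArg Finset.card
  ext c
  rw [Finset.mem_filter, Set.mem_toFinset]
  constructor
  · rintro ⟨_, hc⟩
    induction c using Quotient.inductionOn with
    | h p => exact ⟨p, hc, rfl⟩
  · rintro ⟨p, hp, rfl⟩
    exact ⟨Finset.mem_univ _, hp⟩

theorem chain_step [Fintype Q] {δ : Q → A → Q} (hs : ∃ w, IsReset δ w) {r s : Setoid Q}
    (hr : IsCong δ r) (hs' : IsCong δ s) (hrs : r ≤ s) (w : List A)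
    (hw : ∀ p q, s (run δ p w) (run δ q w)) :
    ∃ w' : List A, w'.length ≤ ∑ᶠ B : Quotient s, (parts r s B + 1).choose 3 ∧
      ∀ p q, r (run δ p (w ++ w')) (run δ q (w ++ w')) := by
  classical
  have : Fintype (Quotient r) := Fintype.ofFinite _
  have : Fintype (Quotient s) := Fintype.ofFinite _
  have hres : ∃ w, IsReset (quoAct hr) w := by
    obtain ⟨v, q, hq⟩ := hs
    refine ⟨v, Quotient.mk r q, fun c => ?_⟩
    induction c using Quotient.inductionOn with
    | h p => rw [run_quoAct, hq]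
  have hπ : ∀ (c : Quotient r) (a : A), proj hrs (quoAct hr c a) = quoAct hs' (proj hrs c) a := by
    intro c a
    induction c using Quotient.inductionOn with
    | h p => rfl
  obtain ⟨w', hw', hc⟩ := collapse hres hπ
    (Finset.univ.image fun p : Q => (Quotient.mk r (run δ p w) : Quotient r)) (by
      intro c hc c' hc'
      obtain ⟨p, _, rfl⟩ := Finset.mem_image.1 hc
      obtain ⟨q, _, rfl⟩ := Finset.mem_image.1 hc'
      exact Quotient.sound (hw p q))
  refine ⟨w', ?_, ?_⟩
  · rw [finsum_eq_sum_of_fintype]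
    refine hw'.trans (le_of_eq ?_)
    exact Finset.sum_congr rfl fun B _ => by rw [fib_proj]
  · intro p q
    rw [Finset.card_le_one] at hc
    have h1 := hc (run (quoAct hr) (Quotient.mk r (run δ p w)) w')
      (Finset.mem_image_of_mem _ (Finset.mem_image_of_mem _ (Finset.mem_univ p)))
      (run (quoAct hr) (Quotient.mk r (run δ q w)) w')
      (Finset.mem_image_of_mem _ (Finset.mem_image_of_mem _ (Finset.mem_univ q)))
    rw [run_quoAct, run_quoAct, ← run_append, ← run_append] at h1
    exact Quotient.exact h1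

/-- Pin's bound along a chain of congruences. -/
theorem chain [Fintype Q] {δ : Q → A → Q} (hs : ∃ w, IsReset δ w) (h : ℕ) (θ : ℕ → Setoid Q)
    (h0 : θ 0 = ⊥) (hh : θ h = ⊤) (hle : ∀ i < h, θ i ≤ θ (i + 1))
    (hc : ∀ i ≤ h, IsCong δ (θ i)) :
    ∃ w : List A, IsReset δ w ∧ w.length ≤
      ∑ i ∈ Finset.range h, ∑ᶠ B : Quotient (θ (i + 1)), (parts (θ i) (θ (i + 1)) B + 1).choose 3 := by
  classical
  have key : ∀ j ≤ h, ∃ w : List A, (∀ p q, θ (h - j) (run δ p w) (run δ q w)) ∧ w.length ≤
      ∑ i ∈ Finset.Ico (h - j) h,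
        ∑ᶠ B : Quotient (θ (i + 1)), (parts (θ i) (θ (i + 1)) B + 1).choose 3 := by
    intro j
    induction j with
    | zero =>
      intro _
      refine ⟨[], ?_, Nat.zero_le _⟩
      intro p q
      rw [Nat.sub_zero, hh]
      trivial
    | succ j ih =>
      intro hj
      obtain ⟨w, hw, hlen⟩ := ih (by omega)
      have hi : h - j = (h - (j + 1)) + 1 := by omega
      rw [hi] at hw
      obtain ⟨w', hw', hfin⟩ := chain_step hs (hc (h - (j + 1)) (by omega))
        (hc (h - (j + 1) + 1) (by omega)) (hle (h - (j + 1)) (by omega)) w hw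
      refine ⟨w ++ w', hfin, ?_⟩
      rw [List.length_append, Finset.sum_eq_sum_Ico_succ_bot (by omega), ← hi, add_comm]
      exact Nat.add_le_add (by rw [hi]; exact hw') hlen
  obtain ⟨w, hw, hlen⟩ := key h le_rfl
  rw [Nat.sub_self, h0] at hw
  rw [Nat.sub_self] at hlen
  refine ⟨w, ?_, by rw [Finset.range_eq_Ico]; exact hlen⟩
  rcases isEmpty_or_nonempty Q with hQ | ⟨⟨q⟩⟩
  · obtain ⟨_, q, _⟩ := hs
    exact ⟨q, fun p => (hQ.false p).elim⟩
  · exact ⟨run δ q w, fun p => hw p q⟩

theorem six_choose (k : ℕ) : 6 * (k + 1).choose 3 = (k + 1) * k * (k - 1) := by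
  have h := Nat.descFactorial_eq_factorial_mul_choose (k + 1) 3
  have h3 : Nat.factorial 3 = 6 := rfl
  rw [h3] at h
  rw [← h]
  simp only [Nat.descFactorial_succ, Nat.descFactorial_zero]
  have h1 : k + 1 - 0 = k + 1 := rfl
  have h2 : k + 1 - 1 = k := rfl
  have h4 : k + 1 - 2 = k - 1 := by omega
  rw [h1, h2, h4]
  ring

theorem sum_parts [Fintype Q] {r s : Setoid Q} (hrs : r ≤ s) (K : ℕ)
    (hK : ∀ B, parts r s B ≤ K) :
    6 * ∑ᶠ B : Quotient s, (parts r s B + 1).choose 3 ≤
      K * (K + 1) * (Nat.card (Quotient r) - Nat.card (Quotient s)) := by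
  classical
  have : Fintype (Quotient r) := Fintype.ofFinite _
  have : Fintype (Quotient s) := Fintype.ofFinite _
  rw [finsum_eq_sum_of_fintype, Finset.mul_sum]
  have h1 : ∀ B : Quotient s, 6 * (parts r s B + 1).choose 3 ≤ K * (K + 1) * (parts r s B - 1) := by
    intro B
    rw [six_choose, mul_comm (parts r s B + 1)]
    exact Nat.mul_le_mul_right _ (Nat.mul_le_mul (hK B) (Nat.succ_le_succ (hK B)))
  refine (Finset.sum_le_sum fun B _ => h1 B).trans ?_
  rw [← Finset.mul_sum]
  refine Nat.mul_le_mul_left _ ?_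
  have hpos : ∀ B : Quotient s, 1 ≤ parts r s B := by
    intro B
    rw [← fib_proj hrs]
    induction B using Quotient.inductionOn with
    | h p => exact Finset.card_pos.2 ⟨Quotient.mk r p, by rw [Finset.mem_filter]; exact ⟨Finset.mem_univ _, rfl⟩⟩
  have h2 : ∑ B : Quotient s, parts r s B = Nat.card (Quotient r) := by
    rw [Nat.card_eq_fintype_card, ← Finset.card_univ,
      Finset.card_eq_sum_card_fiberwise (f := proj hrs) (t := (Finset.univ : Finset (Quotient s)))
        (fun _ _ => by simp)]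
    exact Finset.sum_congr rfl fun B _ => (fib_proj hrs B).symm
  have h3 : ∑ B : Quotient s, (parts r s B - 1) + Nat.card (Quotient s) = Nat.card (Quotient r) := by
    rw [← h2, Nat.card_eq_fintype_card, ← Finset.card_univ, Finset.card_eq_sum_ones,
      ← Finset.sum_add_distrib]
    exact Finset.sum_congr rfl fun B _ => Nat.sub_add_cancel (hpos B)
  omega

/-- If every class splits into at most `K` classes the bound is `K (K + 1) (n - 1) / 6`. -/
theorem chain_width [Fintype Q] {δ : Q → A → Q} (hs : ∃ w, IsReset δ w) (h : ℕ) (θ : ℕ → Setoid Q)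
    (h0 : θ 0 = ⊥) (hh : θ h = ⊤) (hle : ∀ i < h, θ i ≤ θ (i + 1))
    (hc : ∀ i ≤ h, IsCong δ (θ i)) (K : ℕ) (hK : ∀ i < h, ∀ B, parts (θ i) (θ (i + 1)) B ≤ K) :
    ∃ w : List A, IsReset δ w ∧ 6 * w.length ≤ K * (K + 1) * (Fintype.card Q - 1) := by
  classical
  obtain ⟨w, hw, hlen⟩ := chain hs h θ h0 hh hle hc
  refine ⟨w, hw, (Nat.mul_le_mul_left 6 hlen).trans ?_⟩
  rw [Finset.mul_sum]
  have hmono : ∀ i < h, Nat.card (Quotient (θ (i + 1))) ≤ Nat.card (Quotient (θ i)) := by
    intro i hi
    refine Nat.card_le_card_of_surjective (proj (hle i hi)) ?_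
    intro c
    induction c using Quotient.inductionOn with
    | h p => exact ⟨Quotient.mk _ p, rfl⟩
  have key : ∀ j ≤ h, ∑ i ∈ Finset.range j,
      6 * ∑ᶠ B : Quotient (θ (i + 1)), (parts (θ i) (θ (i + 1)) B + 1).choose 3 ≤
      K * (K + 1) * (Nat.card (Quotient (θ 0)) - Nat.card (Quotient (θ j))) ∧
      Nat.card (Quotient (θ j)) ≤ Nat.card (Quotient (θ 0)) := by
    intro j
    induction j with
    | zero => intro _; exact ⟨by simp, le_rfl⟩
    | succ j ih =>
      intro hj
      obtain ⟨ih1, ih2⟩ := ih (by omega)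
      have h1 := sum_parts (hle j (by omega)) K (hK j (by omega))
      have h2 := hmono j (by omega)
      refine ⟨?_, h2.trans ih2⟩
      rw [Finset.sum_range_succ]
      refine (Nat.add_le_add ih1 h1).trans ?_
      rw [← Nat.mul_add]
      refine Nat.mul_le_mul_left _ ?_
      omega
  refine (key h le_rfl).1.trans ?_
  refine Nat.mul_le_mul_left _ ?_
  have h1 : Nat.card (Quotient (θ 0)) = Fintype.card Q := by
    rw [h0, ← Nat.card_eq_fintype_card]
    refine Nat.card_congr (Equiv.ofBijective (fun p : Q => (Quotient.mk (⊥ : Setoid Q) p)) ⟨?_, ?_⟩).symm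
    · intro p q hpq
      exact Quotient.exact hpq
    · intro c
      exact Quotient.exists_rep c
  rcases isEmpty_or_nonempty Q with hQ | hQ
  · rw [h1]
    have : Fintype.card Q = 0 := Fintype.card_eq_zero
    omega
  · have : Nonempty (Quotient (θ h)) := ⟨Quotient.mk _ hQ.some⟩
    have h2 : 1 ≤ Nat.card (Quotient (θ h)) := Nat.card_pos
    omega

end Pool.Agent.Rad
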