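import Pool.Agent.Rad.Radical

/-!
# Radical words and the components of the pair automaton
-/

set_option autoImplicit false

namespace Pool.Agent.Rad

variable {Q A : Type*}

theorem act_mk (δ : Q → A → Q) (w : List A) (p q : Q) :
    act δ w s(p, q) = s(run δ p w, run δ q w) := rfl

theorem act_append (δ : Q → A → Q) (u w : List A) (z : Sym2 Q) :
    act δ (u ++ w) z = act δ w (act δ u z) := by
  induction z using Sym2.inductionOn with
  | hf p q => rw [act_mk, act_mk, act_mk, run_append, run_append]

theorem act_nil (δ : Q → A → Q) (z : Sym2 Q) : act δ [] z = z := by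
  induction z using Sym2.inductionOn with
  | hf p q => rfl

theorem act_diag (δ : Q → A → Q) (w : List A) {z : Sym2 Q} (h : z.IsDiag) :
    (act δ w z).IsDiag := by
  induction z using Sym2.inductionOn with
  | hf p q =>
    rw [Sym2.mk_isDiag_iff] at h
    rw [act_mk, Sym2.mk_isDiag_iff, h]

theorem Stable.act {δ : Q → A → Q} {X : Set (Sym2 Q)} (hX : Stable δ X) (w : List A) {z : Sym2 Q}
    (hz : z ∈ X) (h : ¬ (act δ w z).IsDiag) : Rad.act δ w z ∈ X := by
  induction w generalizing z with
  | nil => rw [act_nil]; exact hz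
  | cons a w ih =>
    have h1 : Rad.act δ (a :: w) z = Rad.act δ w (z.map fun p => δ p a) := by
      rw [show a :: w = [a] ++ w from rfl, act_append]
      rfl
    rw [h1] at h ⊢
    refine ih (hX.2 z hz a ?_) h
    intro h2
    exact h (act_diag δ w h2)

/-- The nondegenerate pairs reachable from a pair. -/
def fwd (δ : Q → A → Q) (z : Sym2 Q) : Set (Sym2 Q) := {z' | ¬ z'.IsDiag ∧ ∃ w, act δ w z = z'}

/-- The number of pairs reachable from a pair. -/
noncomputable def mu (δ : Q → A → Q) (z : Sym2 Q) : ℕ := (fwd δ z).ncard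

theorem fwd_subset {δ : Q → A → Q} {z : Sym2 Q} (w : List A) :
    fwd δ (act δ w z) ⊆ fwd δ z := by
  rintro z' ⟨h, v, hv⟩
  exact ⟨h, w ++ v, by rw [act_append, hv]⟩

theorem mu_le [Finite Q] {δ : Q → A → Q} {z : Sym2 Q} (w : List A) : mu δ (act δ w z) ≤ mu δ z :=
  Set.ncard_le_ncard (fwd_subset w) (Set.toFinite _)

theorem mu_pos [Finite Q] {δ : Q → A → Q} {z : Sym2 Q} (h : ¬ z.IsDiag) : 0 < mu δ z := by
  unfold mu
  rw [Set.ncard_pos (Set.toFinite _)]
  exact ⟨z, h, [], act_nil δ z⟩

theorem mem_comp_of_mu [Finite Q] {δ : Q → A → Q} {z : Sym2 Q} (w : List A) (hz : ¬ z.IsDiag)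
    (h : mu δ z ≤ mu δ (act δ w z)) : act δ w z ∈ comp δ z := by
  refine ⟨⟨w, rfl⟩, ?_⟩
  have h1 : fwd δ (act δ w z) = fwd δ z :=
    Set.eq_of_subset_of_ncard_le (fwd_subset w) h (Set.toFinite _)
  have h2 : z ∈ fwd δ (act δ w z) := by
    rw [h1]
    exact ⟨hz, [], act_nil δ z⟩
  exact h2.2

/-- A pair leaves its component along a word which is not longer than the component. -/
theorem exists_leave [Finite Q] {δ : Q → A → Q} (hs : ∃ w, IsReset δ w) {z : Sym2 Q}
    (hz : ¬ z.IsDiag) : ∃ w : List A, w.length ≤ (comp δ z).ncard ∧ act δ w z ∉ comp δ z := by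
  classical
  have hex : ∃ n, ∃ w : List A, w.length = n ∧ act δ w z ∉ comp δ z := by
    obtain ⟨w, q, hq⟩ := hs
    refine ⟨w.length, w, rfl, ?_⟩
    rintro ⟨_, v, hv⟩
    have h1 : (act δ w z).IsDiag := by
      induction z using Sym2.inductionOn with
      | hf p p' => rw [act_mk, hq, hq, Sym2.mk_isDiag_iff]
    have h2 := act_diag δ v h1
    rw [hv] at h2
    exact hz h2
  obtain ⟨w, hwn, hw⟩ := Nat.find_spec hex
  have hmin : ∀ w' : List A, act δ w' z ∉ comp δ z → w.length ≤ w'.length := by
    intro w' hw'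
    rw [hwn]
    exact Nat.find_min' hex ⟨w', rfl, hw'⟩
  refine ⟨w, ?_, hw⟩
  have hin : ∀ j : Fin w.length, act δ (w.take j) z ∈ comp δ z := by
    intro j
    by_contra hj
    have h1 := hmin _ hj
    rw [List.length_take] at h1
    have := j.2
    omega
  have hinj : Function.Injective fun j : Fin w.length => act δ (w.take j) z := by
    have key : ∀ i j : Fin w.length, i < j → act δ (w.take i) z ≠ act δ (w.take j) z := by
      intro i j hij heq
      have h1 : act δ (w.take i ++ w.drop j) z = act δ w z := by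
        rw [act_append, heq, ← act_append, List.take_append_drop]
      have h2 := hmin (w.take i ++ w.drop j) (by rw [h1]; exact hw)
      rw [List.length_append, List.length_take, List.length_drop] at h2
      have h3 : (i : ℕ) < j := hij
      have h4 := j.2
      omega
    intro i j hij
    rcases lt_trichotomy i j with h | h | h
    · exact absurd hij (key i j h)
    · exact h
    · exact absurd hij.symm (key j i h)
  have h1 : (Set.range fun j : Fin w.length => act δ (w.take j) z).ncard ≤ (comp δ z).ncard := by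
    apply Set.ncard_le_ncard _ (Set.toFinite _)
    rintro _ ⟨j, rfl⟩
    exact hin j
  rw [← Set.image_univ, Set.ncard_image_of_injective _ hinj, Set.ncard_univ, Nat.card_fin] at h1
  exact h1

/-- The span of the differences over the pairs of `X` of level at most `t`. -/
noncomputable def Lv [Finite Q] (δ : Q → A → Q) (X : Set (Sym2 Q)) (t : ℕ) :
    Submodule ℂ (Q → ℂ) :=
  Submodule.span ℂ {x | ∃ p q, s(p, q) ∈ X ∧ mu δ s(p, q) ≤ t ∧ x = e p - e q}

theorem Lv_mono [Finite Q] (δ : Q → A → Q) (X : Set (Sym2 Q)) {s t : ℕ} (h : s ≤ t) :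
    Lv δ X s ≤ Lv δ X t := by
  apply Submodule.span_mono
  rintro x ⟨p, q, h1, h2, rfl⟩
  exact ⟨p, q, h1, h2.trans h, rfl⟩

theorem Lv_zero [Finite Q] {δ : Q → A → Q} {X : Set (Sym2 Q)} (hX : Stable δ X) :
    Lv δ X 0 = ⊥ := by
  unfold Lv
  rw [Submodule.span_eq_bot]
  rintro x ⟨p, q, h1, h2, rfl⟩
  have := mu_pos (δ := δ) (hX.1 _ h1)
  omega

theorem lin_Lv [Finite Q] {δ : Q → A → Q} {X : Set (Sym2 Q)} (hX : Stable δ X) (t : ℕ)
    (w : List A) : ∀ x ∈ Lv δ X t, lin δ w x ∈ Lv δ X t := by
  intro x hx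
  have h1 : (Lv δ X t).map (lin δ w) ≤ Lv δ X t := by
    conv_lhs => unfold Lv
    rw [Submodule.map_span, Submodule.span_le]
    rintro _ ⟨_, ⟨p, q, h1, h2, rfl⟩, rfl⟩
    rw [lin_diff]
    by_cases h : run δ p w = run δ q w
    · rw [h, sub_self]
      exact Submodule.zero_mem _
    · refine Submodule.subset_span ⟨_, _, ?_, ?_, rfl⟩
      · exact hX.act w h1 (by rw [act_mk, Sym2.mk_isDiag_iff]; exact h)
      · exact (mu_le w).trans h2
  exact h1 (Submodule.mem_map_of_mem hx)

/-- The image of the level `t + 1` under a word, modulo the level `t`. -/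
noncomputable def Im [Finite Q] (δ : Q → A → Q) (X : Set (Sym2 Q)) (t : ℕ) (u : List A) :
    Submodule ℂ ((Q → ℂ) ⧸ Lv δ X t) :=
  (Lv δ X (t + 1)).map ((Lv δ X t).mkQ ∘ₗ lin δ u)

theorem Im_append [Finite Q] {δ : Q → A → Q} {X : Set (Sym2 Q)} (hX : Stable δ X) (t : ℕ)
    (u w : List A) : Im δ X t (u ++ w) =
      (Im δ X t u).map ((Lv δ X t).mapQ (Lv δ X t) (lin δ w) (lin_Lv hX t w)) := by
  unfold Im
  rw [← Submodule.map_comp, lin_append, ← LinearMap.comp_assoc, ← LinearMap.comp_assoc]
  rfl

/-- The rank of a word on the section `t`. -/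
noncomputable def rk [Finite Q] (δ : Q → A → Q) (X : Set (Sym2 Q)) (t : ℕ) (u : List A) : ℕ :=
  Module.finrank ℂ (Im δ X t u)

theorem rk_append_le [Fintype Q] {δ : Q → A → Q} {X : Set (Sym2 Q)} (hX : Stable δ X) (t : ℕ)
    (u w : List A) : rk δ X t (u ++ w) ≤ rk δ X t u := by
  unfold rk
  rw [Im_append hX]
  exact Submodule.finrank_map_le _ _

theorem rk_append_lt [Fintype Q] {δ : Q → A → Q} {X : Set (Sym2 Q)} (hX : Stable δ X) (t : ℕ)
    (u w : List A) {x : Q → ℂ} (hx : x ∈ Lv δ X (t + 1)) (h1 : lin δ u x ∉ Lv δ X t)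
    (h2 : lin δ (u ++ w) x ∈ Lv δ X t) : rk δ X t (u ++ w) < rk δ X t u := by
  unfold rk
  rw [Im_append hX]
  set f := (Lv δ X t).mapQ (Lv δ X t) (lin δ w) (lin_Lv hX t w) with hf
  set g := f.domRestrict (Im δ X t u) with hg
  have h3 := LinearMap.finrank_range_add_finrank_ker g
  have h4 : LinearMap.range g = (Im δ X t u).map f := LinearMap.range_domRestrict _ _
  rw [h4] at h3
  have h5 : 0 < Module.finrank ℂ (LinearMap.ker g) := by
    apply Nat.pos_of_ne_zero
    intro h0
    have h9 := Submodule.finrank_eq_zero.1 h0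
    have h10 : LinearMap.ker g ≠ ⊥ := by
      rw [Submodule.ne_bot_iff]
      have h6 : (Lv δ X t).mkQ (lin δ u x) ∈ Im δ X t u := Submodule.mem_map_of_mem hx
      refine ⟨⟨_, h6⟩, ?_, ?_⟩
      · rw [LinearMap.mem_ker]
        show f ((Lv δ X t).mkQ (lin δ u x)) = 0
        rw [hf, Submodule.mkQ_apply, Submodule.mapQ_apply, Submodule.Quotient.mk_eq_zero]
        rw [lin_append] at h2
        exact h2
      · intro h7
        have h8 := congrArg Subtype.val h7
        apply h1
        rw [← Submodule.Quotient.mk_eq_zero]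
        exact h8
    exact h10 h9
  omega

theorem rk_nil_sum [Fintype Q] {δ : Q → A → Q} {X : Set (Sym2 Q)} (hX : Stable δ X) (T : ℕ) :
    ∑ t ∈ Finset.range T, rk δ X t [] ≤ Module.finrank ℂ (Lv δ X T) := by
  induction T with
  | zero => exact Nat.zero_le _
  | succ T ih =>
    rw [Finset.sum_range_succ]
    have h1 : rk δ X T [] + Module.finrank ℂ (Lv δ X T) = Module.finrank ℂ (Lv δ X (T + 1)) := by
      unfold rk Im
      rw [lin_nil, LinearMap.comp_id]
      set g := (Lv δ X T).mkQ.domRestrict (Lv δ X (T + 1)) with hg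
      have h3 := LinearMap.finrank_range_add_finrank_ker g
      have h4 : LinearMap.range g = (Lv δ X (T + 1)).map (Lv δ X T).mkQ :=
        LinearMap.range_domRestrict _ _
      have h5 : LinearMap.ker g = (Lv δ X T).submoduleOf (Lv δ X (T + 1)) := by
        ext x
        rw [LinearMap.mem_ker]
        exact Submodule.Quotient.mk_eq_zero _
      rw [h4, h5, (Submodule.submoduleOfEquivOfLe (Lv_mono δ X (Nat.le_succ T))).finrank_eq] at h3
      exact h3
    omega

theorem Lv_le_V [Fintype Q] (δ : Q → A → Q) (X : Set (Sym2 Q)) (t : ℕ) : Lv δ X t ≤ V Q := by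
  unfold Lv
  rw [Submodule.span_le]
  rintro x ⟨p, q, _, _, rfl⟩
  exact diff_mem_V p q

theorem finrank_Lv [Fintype Q] (δ : Q → A → Q) (X : Set (Sym2 Q)) (t : ℕ) :
    Module.finrank ℂ (Lv δ X t) ≤ Fintype.card Q - 1 := by
  rcases isEmpty_or_nonempty Q with hQ | ⟨⟨q⟩⟩
  · have h1 := Submodule.finrank_le (Lv δ X t)
    rw [Module.finrank_fintype_fun_eq_card, Fintype.card_eq_zero] at h1
    omega
  · have h1 : Lv δ X t < ⊤ := by
      refine lt_of_le_of_lt (Lv_le_V δ X t) ?_
      rw [lt_top_iff_ne_top]
      intro h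
      have h2 : (e q : Q → ℂ) ∈ V Q := by rw [h]; trivial
      have h3 : ∑ r, (e q : Q → ℂ) r = 0 := h2
      rw [sum_e] at h3
      exact one_ne_zero h3
    have h4 := Submodule.finrank_lt h1.ne
    rw [Module.finrank_fintype_fun_eq_card] at h4
    omega

theorem isRadical_of_rk [Fintype Q] {δ : Q → A → Q} {X : Set (Sym2 Q)} (hX : Stable δ X)
    (hconn : ∀ p q, Relation.EqvGen (fun p q => s(p, q) ∈ X) p q) {u : List A}
    (T : ℕ) (hT : ∀ z, mu δ z ≤ T) (h : ∀ t < T, Im δ X t u = ⊥) : IsRadical δ u := by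
  rw [isRadical_iff]
  intro w p q hp hq
  by_contra hne
  have hall : (e p - e q : Q → ℂ) ∈ Lv δ X T := by
    have key : ∀ p q, Relation.EqvGen (fun p q => s(p, q) ∈ X) p q →
        (e p - e q : Q → ℂ) ∈ Lv δ X T := by
      intro p q hpq
      induction hpq with
      | rel p q h => exact Submodule.subset_span ⟨p, q, h, hT _, rfl⟩
      | refl p => rw [sub_self]; exact Submodule.zero_mem _
      | symm p q _ ih => rw [← neg_sub]; exact Submodule.neg_mem _ ih
      | trans p q r _ _ h1 h2 =>
        have : (e p - e r : Q → ℂ) = (e p - e q) + (e q - e r) := by abel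
        rw [this]
        exact Submodule.add_mem _ h1 h2
    exact key p q (hconn p q)
  have hdown : ∀ t ≤ T, (e p - e q : Q → ℂ) ∈ Lv δ X (T - t) := by
    intro t
    induction t with
    | zero => intro _; exact hall
    | succ t ih =>
      intro ht
      have h1 := ih (by omega)
      have h2 : T - t = (T - (t + 1)) + 1 := by omega
      rw [h2] at h1
      have h3 : (Lv δ X (T - (t + 1))).mkQ (lin δ u (e p - e q)) ∈ Im δ X (T - (t + 1)) u :=
        Submodule.mem_map_of_mem h1
      rw [h (T - (t + 1)) (by omega), Submodule.mem_bot, Submodule.mkQ_apply,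
        Submodule.Quotient.mk_eq_zero] at h3
      have h4 := lin_Lv hX _ w _ h3
      rw [lin_diff, lin_diff, ← run_append, ← run_append, hp, hq] at h4
      exact h4
  have h5 := hdown T le_rfl
  rw [Nat.sub_self, Lv_zero hX, Submodule.mem_bot] at h5
  exact diff_ne hne h5

/-- A synchronizing automaton has a radical word of length at most `c (n - 1)`, where `c` bounds the
components of a stable connected set of pairs. -/
theorem comp_bound [Fintype Q] {δ : Q → A → Q} (hs : ∃ w, IsReset δ w) {X : Set (Sym2 Q)}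
    (hX : Stable δ X) (hconn : ∀ p q, Relation.EqvGen (fun p q => s(p, q) ∈ X) p q) (c : ℕ)
    (hc : ∀ z ∈ X, (comp δ z).ncard ≤ c) :
    ∃ u : List A, IsRadical δ u ∧ u.length ≤ c * (Fintype.card Q - 1) := by
  classical
  set T : ℕ := (Set.univ : Set (Sym2 Q)).ncard with hTdef
  have hT : ∀ z, mu δ z ≤ T := fun z =>
    Set.ncard_le_ncard (Set.subset_univ _) (Set.toFinite _)
  have key : ∀ n : ℕ, ∀ u : List A, ∑ t ∈ Finset.range T, rk δ X t u ≤ n →
      ∃ w : List A, IsRadical δ (u ++ w) ∧ w.length ≤ c * n := by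
    intro n
    induction n with
    | zero =>
      intro u hu
      refine ⟨[], ?_, Nat.zero_le _⟩
      rw [List.append_nil]
      apply isRadical_of_rk hX hconn T hT
      intro t ht
      have h1 : rk δ X t u = 0 := by
        have := Finset.single_le_sum (f := fun t => rk δ X t u) (fun _ _ => Nat.zero_le _)
          (Finset.mem_range.2 ht)
        omega
      exact Submodule.finrank_eq_zero.1 h1
    | succ n ih =>
      intro u hu
      by_cases hall : ∀ t < T, Im δ X t u = ⊥
      · refine ⟨[], ?_, Nat.zero_le _⟩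
        rw [List.append_nil]
        exact isRadical_of_rk hX hconn T hT hall
      push Not at hall
      obtain ⟨t, ht, hne⟩ := hall
      -- a pair of level `t + 1` whose image is nonzero
      obtain ⟨p, q, hpq, hmu, hnot⟩ : ∃ p q, s(p, q) ∈ X ∧ mu δ s(p, q) ≤ t + 1 ∧
          lin δ u (e p - e q) ∉ Lv δ X t := by
        by_contra hcon
        push Not at hcon
        apply hne
        rw [eq_bot_iff]
        unfold Im
        rw [Submodule.map_le_iff_le_comap]
        conv_lhs => unfold Lv
        rw [Submodule.span_le]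
        rintro _ ⟨p, q, h1, h2, rfl⟩
        rw [SetLike.mem_coe, Submodule.mem_comap, Submodule.mem_bot, LinearMap.comp_apply,
          Submodule.mkQ_apply, Submodule.Quotient.mk_eq_zero]
        exact hcon p q h1 h2
      rw [lin_diff] at hnot
      have hd : run δ p u ≠ run δ q u := by
        intro h1
        rw [h1, sub_self] at hnot
        exact hnot (Submodule.zero_mem _)
      have hdiag : ¬ (s(run δ p u, run δ q u)).IsDiag := by
        rw [Sym2.mk_isDiag_iff]
        exact hd
      have hmem : s(run δ p u, run δ q u) ∈ X := hX.act u hpq hdiag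
      have hmu' : t < mu δ s(run δ p u, run δ q u) := by
        by_contra h1
        push Not at h1
        exact hnot (Submodule.subset_span ⟨_, _, hmem, h1, rfl⟩)
      obtain ⟨w, hw, hout⟩ := exists_leave hs hdiag
      have hmu'' : mu δ s(run δ p u, run δ q u) ≤ t + 1 := (mu_le (δ := δ) (z := s(p, q)) u).trans hmu
      have hkill : lin δ (u ++ w) (e p - e q) ∈ Lv δ X t := by
        rw [lin_diff, run_append, run_append]
        by_cases h1 : run δ (run δ p u) w = run δ (run δ q u) w
        · rw [h1, sub_self]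
          exact Submodule.zero_mem _
        · have h2 : ¬ (act δ w s(run δ p u, run δ q u)).IsDiag := by
            rw [act_mk, Sym2.mk_isDiag_iff]
            exact h1
          have h3 : mu δ (act δ w s(run δ p u, run δ q u)) < mu δ s(run δ p u, run δ q u) := by
            by_contra h4
            push Not at h4
            exact hout (mem_comp_of_mu w hdiag h4)
          exact Submodule.subset_span ⟨_, _, hX.act w hmem h2,
            Nat.le_of_lt_succ (lt_of_lt_of_le h3 hmu''), rfl⟩
      have hlt : ∑ t ∈ Finset.range T, rk δ X t (u ++ w) < ∑ t ∈ Finset.range T, rk δ X t u := by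
        apply Finset.sum_lt_sum
        · intro s _
          exact rk_append_le hX s u w
        · refine ⟨t, Finset.mem_range.2 ht, ?_⟩
          refine rk_append_lt hX t u w (Submodule.subset_span ⟨p, q, hpq, hmu, rfl⟩) ?_ hkill
          rw [lin_diff]
          exact hnot
      obtain ⟨w', hw', hlen⟩ := ih (u ++ w) (by omega)
      refine ⟨w ++ w', by rw [← List.append_assoc]; exact hw', ?_⟩
      rw [List.length_append, Nat.mul_succ, add_comm]
      exact Nat.add_le_add hlen (hw.trans (hc _ hmem))
  obtain ⟨w, hw, hlen⟩ := key _ [] ((rk_nil_sum hX T).trans (finrank_Lv δ X T))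
  exact ⟨w, hw, hlen⟩

end Pool.Agent.Rad
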