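import Mathlib

/-!
# Reset words and radical words: the definitions
-/

set_option autoImplicit false

namespace Pool.Agent.Rad

variable {Q A : Type*}

/-- The state reached from `p` by the word `w`. -/
def run (δ : Q → A → Q) (p : Q) (w : List A) : Q := w.foldl δ p

/-- `w` is a reset word. -/
def IsReset (δ : Q → A → Q) (w : List A) : Prop := ∃ q, ∀ p, run δ p w = q

/-- The endomorphism `x` lies in the Jacobson radical of the algebra generated by `s`. -/
def InRad {K W : Type*} [Field K] [AddCommGroup W] [Module K W] (s : Set (Module.End K W))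
    (x : Module.End K W) : Prop :=
  ∃ y ∈ Ring.jacobson (Algebra.adjoin K s), (y : Module.End K W) = x

/-- The basis vector of the state `p`. -/
noncomputable def e [Finite Q] (p : Q) : Q → ℂ := Pi.basisFun ℂ Q p

/-- The action of a word on `ℂ^Q`: `e_p` goes to `e_{p.w}`. -/
noncomputable def lin [Finite Q] (δ : Q → A → Q) (w : List A) : (Q → ℂ) →ₗ[ℂ] (Q → ℂ) :=
  (Pi.basisFun ℂ Q).constr ℂ fun p => e (run δ p w)

/-- The vectors whose coordinates have sum `0`. -/
def V (Q : Type*) [Fintype Q] : Submodule ℂ (Q → ℂ) where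
  carrier := {x | ∑ q, x q = 0}
  add_mem' := by
    intro x y hx hy
    show ∑ q, (x q + y q) = 0
    rw [Finset.sum_add_distrib]
    have h1 : ∑ q, x q = 0 := hx
    have h2 : ∑ q, y q = 0 := hy
    rw [h1, h2, add_zero]
  zero_mem' := by
    show ∑ _q : Q, (0 : ℂ) = 0
    rw [Finset.sum_const_zero]
  smul_mem' := by
    intro c x hx
    show ∑ q, c * x q = 0
    have h1 : ∑ q, x q = 0 := hx
    rw [← Finset.mul_sum, h1, mul_zero]

theorem lin_e [Finite Q] (δ : Q → A → Q) (w : List A) (p : Q) :
    lin δ w (e p) = e (run δ p w) := by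
  unfold lin e
  rw [Module.Basis.constr_basis]

theorem hom_ext [Finite Q] {W : Type*} [AddCommGroup W] [Module ℂ W] {f g : (Q → ℂ) →ₗ[ℂ] W}
    (h : ∀ p, f (e p) = g (e p)) : f = g := (Pi.basisFun ℂ Q).ext h

theorem sum_e [Fintype Q] (p : Q) : ∑ q, (e p : Q → ℂ) q = 1 := by
  classical
  unfold e
  rw [Pi.basisFun_apply]
  simp

theorem lin_mem_V [Fintype Q] (δ : Q → A → Q) (w : List A) : ∀ x ∈ V Q, lin δ w x ∈ V Q := by
  intro x hx
  have h : (∑ q, LinearMap.proj q : (Q → ℂ) →ₗ[ℂ] ℂ) ∘ₗ lin δ w = ∑ q, LinearMap.proj q := by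
    refine hom_ext fun p => ?_
    rw [LinearMap.comp_apply, lin_e, LinearMap.sum_apply, LinearMap.sum_apply]
    simp only [LinearMap.proj_apply]
    rw [sum_e, sum_e]
  have h1 := congrArg (fun f => f x) h
  simp only [LinearMap.comp_apply, LinearMap.sum_apply, LinearMap.proj_apply] at h1
  show ∑ q, lin δ w x q = 0
  rw [h1]
  exact hx

/-- The action of a word on `V`. -/
noncomputable def rho [Fintype Q] (δ : Q → A → Q) (w : List A) : Module.End ℂ (V Q) :=
  (lin δ w).restrict (lin_mem_V δ w)

/-- `w` is a radical word: its action on `V` lies in the Jacobson radical of the algebra generated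
by the actions of all words. -/
def IsRadical [Fintype Q] (δ : Q → A → Q) (w : List A) : Prop :=
  InRad (Set.range (rho δ)) (rho δ w)

/-- The image of an unordered pair under a word. -/
def act (δ : Q → A → Q) (w : List A) (z : Sym2 Q) : Sym2 Q := z.map fun p => run δ p w

/-- The strongly connected component of an unordered pair in the pair automaton. -/
def comp (δ : Q → A → Q) (z : Sym2 Q) : Set (Sym2 Q) :=
  {z' | (∃ w, act δ w z = z') ∧ ∃ w, act δ w z' = z}

/-- `X` is a set of pairs of different states; a letter maps a pair of `X` to a pair of `X` or merges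
it. -/
def Stable (δ : Q → A → Q) (X : Set (Sym2 Q)) : Prop :=
  (∀ z ∈ X, ¬ z.IsDiag) ∧ ∀ z ∈ X, ∀ a, ¬ (z.map fun p => δ p a).IsDiag → (z.map fun p => δ p a) ∈ X

/-- The relation `r` is a congruence of the automaton. -/
def IsCong (δ : Q → A → Q) (r : Setoid Q) : Prop := ∀ p q a, r p q → r (δ p a) (δ q a)

/-- The number of classes of `r` which meet the class `B` of `s` (for `r ≤ s`: the number of classes
of `r` into which `B` splits). -/
noncomputable def parts (r s : Setoid Q) (B : Quotient s) : ℕ :=
  ((fun p => (Quotient.mk r p : Quotient r)) '' {p | Quotient.mk s p = B}).ncard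

end Pool.Agent.Rad
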