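import Pool.Agent.Rad.Skew
import Pool.Agent.Rad.Defs

/-!
# Merging words, with blocks
-/

set_option autoImplicit false

namespace Pool.Agent.Rad

open Finset

variable {Q A : Type*}

theorem run_nil (δ : Q → A → Q) (p : Q) : run δ p [] = p := rfl

theorem run_cons (δ : Q → A → Q) (p : Q) (a : A) (w : List A) :
    run δ p (a :: w) = run δ (δ p a) w := rfl

theorem run_append (δ : Q → A → Q) (p : Q) (u v : List A) :
    run δ p (u ++ v) = run δ (run δ p u) v := List.foldl_append

theorem run_semiconj {C D : Type*} {δ : C → A → C} {π : C → D} {δD : D → A → D}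
    (hπ : ∀ c a, π (δ c a) = δD (π c) a) (w : List A) (c : C) :
    π (run δ c w) = run δD (π c) w := by
  induction w generalizing c with
  | nil => rfl
  | cons a w ih => rw [run_cons, run_cons, ih, hπ]

/-- The number of elements of a fibre. -/
def fib {C D : Type*} [Fintype C] [DecidableEq D] (π : C → D) (B : D) : ℕ :=
  (Finset.univ.filter fun c => π c = B).card

/-- The cost of merging an `r`-set in a block with `k` elements. -/
def cost (k r : ℕ) : ℕ := if r ≤ k then (k - r + 2).choose 2 else 0

theorem merge_step {C D : Type*} [Fintype C] [DecidableEq C] [Fintype D] [DecidableEq D]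
    {δ : C → A → C} (hs : ∃ w, IsReset δ w) {π : C → D} {δD : D → A → D}
    (hπ : ∀ c a, π (δ c a) = δD (π c) a) (R : Finset C) (hR : 2 ≤ R.card)
    (hB : ∀ c ∈ R, ∀ c' ∈ R, π c = π c') :
    ∃ w : List A, w.length ≤ ∑ B : D, cost (fib π B) R.card ∧
      (R.image fun c => run δ c w).card < R.card := by
  classical
  have hex : ∃ n, ∃ w : List A, w.length = n ∧ (R.image fun c => run δ c w).card < R.card := by
    obtain ⟨w, q, hq⟩ := hs
    refine ⟨w.length, w, rfl, ?_⟩
    have h1 : (R.image fun c => run δ c w) ⊆ {q} := by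
      intro c hc
      obtain ⟨p, _, rfl⟩ := Finset.mem_image.1 hc
      rw [hq p]
      exact Finset.mem_singleton_self _
    have := Finset.card_le_card h1
    rw [Finset.card_singleton] at this
    omega
  obtain ⟨w, hwn, hw⟩ := Nat.find_spec hex
  have hmin : ∀ w' : List A, (R.image fun c => run δ c w').card < R.card →
      w.length ≤ w'.length := by
    intro w' hw'
    rw [hwn]
    exact Nat.find_min' hex ⟨w', rfl, hw'⟩
  refine ⟨w, ?_, hw⟩
  -- the merged pair
  have hpq : ∃ p ∈ R, ∃ q ∈ R, p ≠ q ∧ run δ p w = run δ q w := by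
    by_contra hcon
    push Not at hcon
    have : (R.image fun c => run δ c w).card = R.card := by
      apply Finset.card_image_of_injOn
      intro p hp q hq hpq
      by_contra hne
      exact hcon p hp q hq hne hpq
    omega
  obtain ⟨p, hp, q, hq, hne, hmerge⟩ := hpq
  set L := w.length with hL
  have hcard : ∀ j : Fin L, (R.image fun c => run δ c (w.take j)).card = R.card := by
    intro j
    refine le_antisymm Finset.card_image_le ?_
    by_contra hlt
    push Not at hlt
    have h1 := hmin _ hlt
    rw [List.length_take] at h1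
    have := j.2
    omega
  have hinj : ∀ j : Fin L, ∀ c ∈ R, ∀ c' ∈ R, run δ c (w.take j) = run δ c' (w.take j) → c = c' := by
    intro j
    exact Finset.card_image_iff.1 (hcard j)
  have hskew : ∀ j i : Fin L, j < i → ¬ (run δ p (w.take i) ∈ R.image (fun c => run δ c (w.take j)) ∧
      run δ q (w.take i) ∈ R.image (fun c => run δ c (w.take j))) := by
    rintro j i hji ⟨h1, h2⟩
    obtain ⟨p', hp', hp'e⟩ := Finset.mem_image.1 h1
    obtain ⟨q', hq', hq'e⟩ := Finset.mem_image.1 h2
    have hne' : p' ≠ q' := by
      rintro rfl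
      have : run δ p (w.take i) = run δ q (w.take i) := by rw [← hp'e, ← hq'e]
      exact hne (hinj i p hp q hq this)
    have h3 : run δ p' (w.take j ++ w.drop i) = run δ q' (w.take j ++ w.drop i) := by
      rw [run_append, run_append]
      have h4 : run δ p' (w.take j) = run δ p (w.take i) := hp'e
      have h5 : run δ q' (w.take j) = run δ q (w.take i) := hq'e
      rw [h4, h5, ← run_append, ← run_append, List.take_append_drop]
      exact hmerge
    have h6 : (R.image fun c => run δ c (w.take j ++ w.drop i)).card < R.card := by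
      refine lt_of_le_of_ne Finset.card_image_le ?_
      intro h7
      exact hne' (Finset.card_image_iff.1 h7 hp' hq' h3)
    have h8 := hmin _ h6
    rw [List.length_append, List.length_take, List.length_drop] at h8
    have h9 := j.2
    have h10 := i.2
    have h11 : (j : ℕ) < i := hji
    omega
  -- the blocks
  obtain ⟨c₀, hc₀⟩ : R.Nonempty := Finset.card_pos.1 (by omega)
  set b : Fin L → D := fun j => run δD (π c₀) (w.take j) with hb
  have hblock : ∀ j : Fin L, ∀ c ∈ R, π (run δ c (w.take j)) = b j := by
    intro j c hc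
    rw [run_semiconj hπ, hB c hc c₀ hc₀]
  have hcount : L = ∑ B : D, (Finset.univ.filter fun j : Fin L => b j = B).card := by
    have := Finset.card_eq_sum_card_fiberwise (s := (Finset.univ : Finset (Fin L)))
      (t := (Finset.univ : Finset D)) (f := b) (fun _ _ => by simp)
    rw [Finset.card_univ, Fintype.card_fin] at this
    exact this
  rw [hcount]
  refine Finset.sum_le_sum fun B _ => ?_
  by_cases hempty : (Finset.univ.filter fun j : Fin L => b j = B) = ∅
  · rw [hempty, Finset.card_empty]
    exact Nat.zero_le _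
  obtain ⟨j₀, hj₀⟩ := Finset.nonempty_iff_ne_empty.2 hempty
  have hj₀' : b j₀ = B := (Finset.mem_filter.1 hj₀).2
  have hk : R.card ≤ fib π B := by
    rw [← hcard j₀]
    apply Finset.card_le_card
    intro c hc
    obtain ⟨c', hc', rfl⟩ := Finset.mem_image.1 hc
    rw [Finset.mem_filter]
    exact ⟨Finset.mem_univ _, by rw [hblock j₀ c' hc', hj₀']⟩
  unfold cost
  rw [if_pos hk]
  have hT : Fintype.card {c : C // π c = B} = fib π B := by
    rw [Fintype.card_subtype]
    rfl
  have hJ : Fintype.card {j : Fin L // b j = B} =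
      (Finset.univ.filter fun j : Fin L => b j = B).card := Fintype.card_subtype _
  rw [← hT, ← hJ]
  have hin : ∀ (j : {j : Fin L // b j = B}) (c : C), c ∈ R.image (fun c => run δ c (w.take j.1)) →
      π c = B := by
    intro j c hc
    obtain ⟨c', hc', rfl⟩ := Finset.mem_image.1 hc
    rw [hblock j.1 c' hc', j.2]
  refine skew_bound
    (fun j : {j : Fin L // b j = B} =>
      (R.image fun c => run δ c (w.take j.1)).subtype fun c => π c = B)
    (fun j => ⟨run δ p (w.take j.1), by rw [hblock j.1 p hp, j.2]⟩)
    (fun j => ⟨run δ q (w.take j.1), by rw [hblock j.1 q hq, j.2]⟩) R.card ?_ ?_ ?_ ?_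
  · intro j
    rw [Finset.card_subtype, Finset.filter_true_of_mem (hin j), hcard]
  · intro j
    rw [Finset.mem_subtype]
    exact Finset.mem_image_of_mem _ hp
  · intro j
    rw [Finset.mem_subtype]
    exact Finset.mem_image_of_mem _ hq
  · intro j i hji hh
    rw [Finset.mem_subtype, Finset.mem_subtype] at hh
    exact hskew j.1 i.1 hji hh

theorem sum_cost (k m : ℕ) : ∑ s ∈ Finset.Icc 2 m, cost k s ≤ (k + 1).choose 3 := by
  have h1 : ∑ s ∈ Finset.Icc 2 m, cost k s ≤ ∑ s ∈ Finset.Icc 2 k, (k - s + 2).choose 2 := by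
    unfold cost
    rw [← Finset.sum_filter]
    apply Finset.sum_le_sum_of_subset
    intro s hs
    rw [Finset.mem_filter, Finset.mem_Icc] at hs
    rw [Finset.mem_Icc]
    exact ⟨hs.1.1, hs.2⟩
  refine h1.trans (le_of_eq ?_)
  rw [← Nat.sum_Icc_choose k 2]
  refine Finset.sum_nbij' (fun s => k - s + 2) (fun s => k - s + 2) ?_ ?_ ?_ ?_ ?_
  · intro s hs
    rw [Finset.mem_Icc] at hs ⊢
    omega
  · intro s hs
    rw [Finset.mem_Icc] at hs ⊢
    omega
  · intro s hs
    rw [Finset.mem_Icc] at hs
    show k - (k - s + 2) + 2 = s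
    omega
  · intro s hs
    rw [Finset.mem_Icc] at hs
    show k - (k - s + 2) + 2 = s
    omega
  · intro s _
    rfl

theorem collapse {C D : Type*} [Fintype C] [DecidableEq C] [Fintype D] [DecidableEq D]
    {δ : C → A → C} (hs : ∃ w, IsReset δ w) {π : C → D} {δD : D → A → D}
    (hπ : ∀ c a, π (δ c a) = δD (π c) a) (R : Finset C)
    (hB : ∀ c ∈ R, ∀ c' ∈ R, π c = π c') :
    ∃ w : List A, w.length ≤ ∑ B : D, (fib π B + 1).choose 3 ∧
      (R.image fun c => run δ c w).card ≤ 1 := by
  classical
  have key : ∀ n : ℕ, ∀ R : Finset C, R.card ≤ n → (∀ c ∈ R, ∀ c' ∈ R, π c = π c') →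
      ∃ w : List A, w.length ≤ ∑ s ∈ Finset.Icc 2 n, ∑ B : D, cost (fib π B) s ∧
        (R.image fun c => run δ c w).card ≤ 1 := by
    intro n
    induction n with
    | zero =>
      intro R hR _
      refine ⟨[], Nat.zero_le _, ?_⟩
      exact Finset.card_image_le.trans (hR.trans (Nat.zero_le _))
    | succ n ih =>
      intro R hR hB
      by_cases hle : R.card ≤ n
      · obtain ⟨w, hw, hw'⟩ := ih R hle hB
        refine ⟨w, hw.trans ?_, hw'⟩
        apply Finset.sum_le_sum_of_subset
        exact Finset.Icc_subset_Icc_right (Nat.le_succ n)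
      have hRn : R.card = n + 1 := by omega
      by_cases h1 : n = 0
      · refine ⟨[], Nat.zero_le _, ?_⟩
        exact Finset.card_image_le.trans (by omega)
      obtain ⟨w₁, hw₁, hw₁'⟩ := merge_step hs hπ R (by omega) hB
      obtain ⟨w₂, hw₂, hw₂'⟩ := ih (R.image fun c => run δ c w₁) (by omega) (by
        intro c hc c' hc'
        obtain ⟨d, hd, rfl⟩ := Finset.mem_image.1 hc
        obtain ⟨d', hd', rfl⟩ := Finset.mem_image.1 hc'
        rw [run_semiconj hπ, run_semiconj hπ, hB d hd d' hd'])
      refine ⟨w₁ ++ w₂, ?_, ?_⟩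
      · rw [List.length_append]
        have h3 : Finset.Icc 2 (n + 1) = insert (n + 1) (Finset.Icc 2 n) := by
          ext s
          rw [Finset.mem_insert, Finset.mem_Icc, Finset.mem_Icc]
          omega
        rw [h3, Finset.sum_insert (by rw [Finset.mem_Icc]; omega)]
        rw [hRn] at hw₁
        exact Nat.add_le_add hw₁ hw₂
      · have h4 : (R.image fun c => run δ c (w₁ ++ w₂)) =
            (R.image fun c => run δ c w₁).image fun c => run δ c w₂ := by
          rw [Finset.image_image]
          apply Finset.image_congr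
          intro c _
          exact run_append δ c w₁ w₂
        rw [h4]
        exact hw₂'
  obtain ⟨w, hw, hw'⟩ := key R.card R le_rfl hB
  refine ⟨w, hw.trans ?_, hw'⟩
  rw [Finset.sum_comm]
  exact Finset.sum_le_sum fun B _ => sum_cost _ _

end Pool.Agent.Rad
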