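import Pool.Agent.Rad.Merge

/-!
# Radical words
-/

set_option autoImplicit false

namespace Pool.Agent.Rad

open scoped Pointwise

variable {Q A : Type*}

theorem lin_append [Finite Q] (δ : Q → A → Q) (u w : List A) :
    lin δ (u ++ w) = lin δ w ∘ₗ lin δ u := by
  refine hom_ext fun p => ?_
  rw [LinearMap.comp_apply, lin_e, lin_e, lin_e, run_append]

theorem lin_nil [Finite Q] (δ : Q → A → Q) : lin δ [] = LinearMap.id := by
  refine hom_ext fun p => ?_
  rw [lin_e]
  rfl

theorem e_inj [Finite Q] {p q : Q} (h : (e p : Q → ℂ) = e q) : p = q :=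
  (Pi.basisFun ℂ Q).injective h

theorem rho_append [Fintype Q] (δ : Q → A → Q) (u w : List A) :
    rho δ (u ++ w) = rho δ w * rho δ u := by
  ext x : 2
  show lin δ (u ++ w) x = lin δ w (lin δ u x)
  rw [lin_append]
  rfl

theorem rho_nil [Fintype Q] (δ : Q → A → Q) : rho δ [] = 1 := by
  ext x : 2
  show lin δ [] x = x
  rw [lin_nil]
  rfl

theorem diff_mem_V [Fintype Q] (p q : Q) : e p - e q ∈ V Q := by
  show ∑ r, ((e p : Q → ℂ) r - (e q : Q → ℂ) r) = 0
  rw [Finset.sum_sub_distrib, sum_e, sum_e, sub_self]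

theorem diff_ne [Finite Q] {p q : Q} (h : p ≠ q) : (e p : Q → ℂ) - e q ≠ 0 := by
  intro h1
  rw [sub_eq_zero] at h1
  exact h (e_inj h1)

theorem lin_diff [Finite Q] (δ : Q → A → Q) (w : List A) (p q : Q) :
    lin δ w (e p - e q) = e (run δ p w) - e (run δ q w) := by
  rw [map_sub, lin_e, lin_e]

/-- `V` is spanned by the differences of basis vectors. -/
theorem V_le_span (Q : Type*) [Fintype Q] :
    V Q ≤ Submodule.span ℂ (Set.range fun z : Q × Q => (e z.1 - e z.2 : Q → ℂ)) := by
  classical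
  intro x hx
  rcases isEmpty_or_nonempty Q with hQ | ⟨⟨q⟩⟩
  · have : x = 0 := Subsingleton.elim _ _
    rw [this]
    exact Submodule.zero_mem _
  have h1 : ∑ p, x p = 0 := hx
  have h2 : x = ∑ p, x p • (e p - e q) := by
    have h3 : ∑ p, x p • (e p - e q) = (∑ p, x p • e p) - (∑ p, x p) • e q := by
      rw [Finset.sum_smul, ← Finset.sum_sub_distrib]
      exact Finset.sum_congr rfl fun p _ => smul_sub _ _ _
    rw [h3, h1, zero_smul, sub_zero]
    unfold e
    exact ((Pi.basisFun ℂ Q).sum_repr x).symm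
  rw [h2]
  exact Submodule.sum_mem _ fun p _ => Submodule.smul_mem _ _ (Submodule.subset_span ⟨(p, q), rfl⟩)

theorem rho_eq_zero [Fintype Q] {δ : Q → A → Q} {w : List A}
    (h : ∀ p q, run δ p w = run δ q w) : rho δ w = 0 := by
  ext x : 2
  show lin δ w x = 0
  have h1 : Submodule.span ℂ (Set.range fun z : Q × Q => (e z.1 - e z.2 : Q → ℂ)) ≤
      LinearMap.ker (lin δ w) := by
    rw [Submodule.span_le]
    rintro _ ⟨z, rfl⟩
    rw [SetLike.mem_coe, LinearMap.mem_ker, lin_diff, h z.1 z.2, sub_self]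
  exact LinearMap.mem_ker.1 (h1 (V_le_span Q x.2))

section General

variable {K W : Type*} [Field K] [AddCommGroup W] [Module K W]

theorem inRad_zero (s : Set (Module.End K W)) : InRad s 0 := ⟨0, Submodule.zero_mem _, rfl⟩

/-- An element of the radical, multiplied from the left by a generator, has no nonzero fixed
vector. -/
theorem fixed_of_inRad {s : Set (Module.End K W)} {x : Module.End K W} (h : InRad s x)
    {y : Module.End K W} (hy : y ∈ s) {v : W} (hv : y (x v) = v) : v = 0 := by
  obtain ⟨x, hx, rfl⟩ := h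
  rw [← Ideal.jacobson_bot, Ideal.mem_jacobson_iff] at hx
  obtain ⟨z, hz⟩ := hx (-⟨y, Algebra.subset_adjoin hy⟩)
  rw [Ideal.mem_bot] at hz
  have h1 := congrArg (fun y : Algebra.adjoin K s => (y : Module.End K W) v) hz
  have h2 : ((z * -⟨y, Algebra.subset_adjoin hy⟩ * x + z - 1 : Algebra.adjoin K s) :
      Module.End K W) = (z : Module.End K W) * (1 - y * x) - 1 := by
    push_cast
    noncomm_ring
  rw [h2] at h1
  rw [LinearMap.sub_apply, Module.End.mul_apply, LinearMap.sub_apply, Module.End.mul_apply, hv,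
    Module.End.one_apply, sub_self, map_zero, zero_sub] at h1
  rw [← neg_eq_zero]
  exact h1

/-- `x` is in the radical of the algebra spanned by the monoid `s` if the space spanned by `s x` is
nilpotent. -/
theorem inRad_of_nilpotent {s : Set (Module.End K W)} (h1 : (1 : Module.End K W) ∈ s)
    (hmul : ∀ x ∈ s, ∀ y ∈ s, x * y ∈ s) {x : Module.End K W} (hx : x ∈ s) (N : ℕ)
    (hN : ∀ z ∈ ((fun y => y * x) '' s) ^ N, z = 0) : InRad s x := by
  have hspan : (Submodule.span K ((fun y => y * x) '' s)) ^ N = ⊥ := by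
    rw [Submodule.span_pow, Submodule.span_eq_bot]
    exact hN
  have halg : Subalgebra.toSubmodule (Algebra.adjoin K s) ≤ Submodule.span K s := by
    rw [Algebra.adjoin_eq_span]
    apply Submodule.span_mono
    intro y hy
    refine Submonoid.closure_induction (motive := fun y _ => y ∈ s) ?_ ?_ ?_ hy
    · intro y hy
      exact hy
    · exact h1
    · intro a b _ _ ha hb
      exact hmul a ha b hb
  refine ⟨⟨x, Algebra.subset_adjoin hx⟩, ?_, rfl⟩
  rw [← Ideal.jacobson_bot, Ideal.mem_jacobson_iff]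
  intro y
  have hy : (y : Module.End K W) * x ∈ Submodule.span K ((fun y => y * x) '' s) := by
    have h2 := halg y.2
    refine Submodule.span_induction
      (p := fun y _ => y * x ∈ Submodule.span K ((fun y => y * x) '' s)) ?_ ?_ ?_ ?_ h2
    · intro v hv
      exact Submodule.subset_span ⟨v, hv, rfl⟩
    · rw [zero_mul]
      exact Submodule.zero_mem _
    · intro a b _ _ ha hb
      rw [add_mul]
      exact Submodule.add_mem _ ha hb
    · intro c a _ ha
      rw [smul_mul_assoc]
      exact Submodule.smul_mem _ _ ha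
  have hnil : IsNilpotent (y * ⟨x, Algebra.subset_adjoin hx⟩ : Algebra.adjoin K s) := by
    refine ⟨N, ?_⟩
    apply Subtype.ext
    have h3 : ((y : Module.End K W) * x) ^ N ∈ (Submodule.span K ((fun y => y * x) '' s)) ^ N :=
      Submodule.pow_mem_pow _ hy N
    rw [hspan, Submodule.mem_bot] at h3
    rw [SubmonoidClass.coe_pow]
    exact h3
  obtain ⟨g, hg⟩ := hnil.isUnit_one_add
  refine ⟨((g⁻¹ : (Algebra.adjoin K s)ˣ) : Algebra.adjoin K s), ?_⟩
  rw [Ideal.mem_bot]
  have h4 : ((g⁻¹ : (Algebra.adjoin K s)ˣ) : Algebra.adjoin K s) *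
      (1 + y * ⟨x, Algebra.subset_adjoin hx⟩) = 1 := by
    rw [← hg]
    exact Units.inv_mul g
  rw [mul_add, mul_one, ← mul_assoc, add_comm] at h4
  rw [h4, sub_self]

end General

theorem isRadical_of_isReset [Fintype Q] {δ : Q → A → Q} {w : List A} (h : IsReset δ w) :
    IsRadical δ w := by
  obtain ⟨q, hq⟩ := h
  unfold IsRadical
  rw [rho_eq_zero fun p p' => by rw [hq, hq]]
  exact inRad_zero _

/-- Only if: a radical word is not a prefix of a word with two fixed points. -/
theorem fixed_of_isRadical [Fintype Q] {δ : Q → A → Q} {u : List A} (h : IsRadical δ u)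
    (w : List A) (p q : Q) (hp : run δ p (u ++ w) = p) (hq : run δ q (u ++ w) = q) : p = q := by
  by_contra hne
  have h3 : rho δ w (rho δ u ⟨e p - e q, diff_mem_V p q⟩) = ⟨e p - e q, diff_mem_V p q⟩ := by
    apply Subtype.ext
    show lin δ w (lin δ u (e p - e q)) = _
    rw [lin_diff, lin_diff, ← run_append, ← run_append, hp, hq]
  exact diff_ne hne (congrArg Subtype.val (fixed_of_inRad h ⟨w, rfl⟩ h3))

/-- The pairs reachable from a pair. -/
def reach (δ : Q → A → Q) (z : Q × Q) : Set (Q × Q) :=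
  {z' | z'.1 ≠ z'.2 ∧ ∃ w, run δ z.1 w = z'.1 ∧ run δ z.2 w = z'.2}

theorem isRadical_of_fixed [Fintype Q] {δ : Q → A → Q} {u : List A}
    (h : ∀ w p q, run δ p (u ++ w) = p → run δ q (u ++ w) = q → p = q) : IsRadical δ u := by
  classical
  have hfin : ∀ z, (reach δ z).Finite := fun z => Set.toFinite _
  -- the words `u v` strictly decrease the reachable set
  have hstep : ∀ (z : Q × Q) (v : List A), run δ z.1 (u ++ v) ≠ run δ z.2 (u ++ v) →
      (reach δ (run δ z.1 (u ++ v), run δ z.2 (u ++ v))).ncard < (reach δ z).ncard := by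
    intro z v hne
    apply Set.ncard_lt_ncard _ (hfin z)
    refine ⟨?_, ?_⟩
    · rintro z' ⟨hz', w, h1, h2⟩
      exact ⟨hz', (u ++ v) ++ w, by rw [run_append]; exact h1, by rw [run_append]; exact h2⟩
    · intro hsub
      have hz : z.1 ≠ z.2 := by
        intro hz
        rw [hz] at hne
        exact hne rfl
      obtain ⟨_, w, h1, h2⟩ := hsub ⟨hz, [], rfl, rfl⟩
      simp only at h1 h2
      rw [← run_append, List.append_assoc] at h1 h2
      exact hz (h _ _ _ h1 h2)
  unfold IsRadical
  have hone : (1 : Module.End ℂ (V Q)) ∈ Set.range (rho δ) := ⟨[], rho_nil δ⟩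
  have hu : rho δ u ∈ Set.range (rho δ) := ⟨u, rfl⟩
  refine inRad_of_nilpotent hone ?_ hu ((Set.univ : Set (Q × Q)).ncard + 1) ?_
  · rintro _ ⟨v, rfl⟩ _ ⟨w, rfl⟩
    exact ⟨w ++ v, rho_append δ w v⟩
  have hprod : ∀ k : ℕ, ∀ x ∈ ((fun y => y * rho δ u) '' Set.range (rho δ)) ^ k,
      ∃ w : List A, x = rho δ w ∧ ∀ z : Q × Q, run δ z.1 w ≠ run δ z.2 w →
      (reach δ (run δ z.1 w, run δ z.2 w)).ncard + k ≤ (reach δ z).ncard := by
    intro k
    induction k with
    | zero =>
      intro x hx
      rw [pow_zero, Set.mem_one] at hx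
      refine ⟨[], by rw [hx, rho_nil], ?_⟩
      intro z _
      exact le_rfl
    | succ k ih =>
      intro x hx
      rw [pow_succ, Set.mem_mul] at hx
      obtain ⟨y, hy, _, ⟨_, ⟨v, rfl⟩, rfl⟩, rfl⟩ := hx
      obtain ⟨w, rfl, hw⟩ := ih y hy
      refine ⟨(u ++ v) ++ w, by simp only [rho_append], ?_⟩
      intro z hz
      have hz' : run δ (run δ z.1 (u ++ v)) w ≠ run δ (run δ z.2 (u ++ v)) w := by
        rw [← run_append, ← run_append]
        exact hz
      have h1 : run δ z.1 (u ++ v) ≠ run δ z.2 (u ++ v) := by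
        intro h2
        rw [h2] at hz'
        exact hz' rfl
      have h3 := hstep z v h1
      have h4 := hw (run δ z.1 (u ++ v), run δ z.2 (u ++ v)) hz'
      have h5 : run δ z.1 (u ++ v ++ w) = run δ (run δ z.1 (u ++ v)) w := run_append _ _ _ _
      have h6 : run δ z.2 (u ++ v ++ w) = run δ (run δ z.2 (u ++ v)) w := run_append _ _ _ _
      rw [h5, h6]
      simp only at h4
      omega
  intro x hx
  obtain ⟨w, rfl, hw⟩ := hprod _ x hx
  apply rho_eq_zero
  intro p q
  by_contra hne
  have h1 := hw (p, q) hne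
  have h2 : (reach δ (p, q)).ncard ≤ (Set.univ : Set (Q × Q)).ncard :=
    Set.ncard_le_ncard (Set.subset_univ _) (Set.toFinite _)
  omega

/-- A word is radical iff no word of which it is a prefix fixes two different states. -/
theorem isRadical_iff [Fintype Q] (δ : Q → A → Q) (u : List A) :
    IsRadical δ u ↔ ∀ w p q, run δ p (u ++ w) = p → run δ q (u ++ w) = q → p = q :=
  ⟨fun h w p q => fixed_of_isRadical h w p q, isRadical_of_fixed⟩

end Pool.Agent.Rad
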