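import Mathlib

/-!
# A skew Bollobás inequality for pairs (Frankl)
-/

set_option autoImplicit false

namespace Pool.Agent.Rad

open Finset

/-- The symmetric functions `x^a y^b + x^b y^a`. -/
noncomputable def symFun (m : ℕ) : Sym2 (Fin (m + 1)) → (ℚ × ℚ → ℚ) :=
  Sym2.lift ⟨fun a b => fun z => z.1 ^ (a : ℕ) * z.2 ^ (b : ℕ) + z.1 ^ (b : ℕ) * z.2 ^ (a : ℕ), by
    intro a b
    funext z
    ring⟩

theorem mem_span_symFun {m : ℕ} (f : Polynomial ℚ) (hf : f.natDegree ≤ m) :
    (fun z : ℚ × ℚ => f.eval z.1 * f.eval z.2) ∈ Submodule.span ℚ (Set.range (symFun m)) := by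
  have h1 : (fun z : ℚ × ℚ => f.eval z.1 * f.eval z.2) =
      ∑ a : Fin (m + 1), ∑ b : Fin (m + 1),
        (f.coeff a * f.coeff b / 2) • symFun m s(a, b) := by
    funext z
    have he : ∀ x : ℚ, f.eval x = ∑ a : Fin (m + 1), f.coeff a * x ^ (a : ℕ) := by
      intro x
      rw [Polynomial.eval_eq_sum_range' (Nat.lt_succ_of_le hf), Finset.sum_range]
    simp only [Finset.sum_apply, Pi.smul_apply, symFun, Sym2.lift_mk, smul_eq_mul]
    have h2 : ∀ a b : Fin (m + 1), f.coeff a * f.coeff b / 2 *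
        (z.1 ^ (a : ℕ) * z.2 ^ (b : ℕ) + z.1 ^ (b : ℕ) * z.2 ^ (a : ℕ)) =
        (f.coeff a * z.1 ^ (a : ℕ)) * (f.coeff b * z.2 ^ (b : ℕ)) / 2 +
        (f.coeff b * z.1 ^ (b : ℕ)) * (f.coeff a * z.2 ^ (a : ℕ)) / 2 := by
      intro a b
      ring
    simp only [h2, Finset.sum_add_distrib]
    have h3 : ∑ a : Fin (m + 1), ∑ b : Fin (m + 1), (f.coeff b * z.1 ^ (b : ℕ)) *
        (f.coeff a * z.2 ^ (a : ℕ)) / 2 = ∑ a : Fin (m + 1), ∑ b : Fin (m + 1),
        (f.coeff a * z.1 ^ (a : ℕ)) * (f.coeff b * z.2 ^ (b : ℕ)) / 2 := Finset.sum_comm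
    rw [h3, he z.1, he z.2, Finset.sum_mul_sum]
    simp only [← Finset.sum_div]
    ring
  rw [h1]
  refine Submodule.sum_mem _ fun a _ => Submodule.sum_mem _ fun b _ => ?_
  exact Submodule.smul_mem _ _ (Submodule.subset_span ⟨_, rfl⟩)

theorem finrank_span_symFun (m : ℕ) :
    Module.finrank ℚ (Submodule.span ℚ (Set.range (symFun m))) ≤ (m + 2).choose 2 := by
  have h := finrank_range_le_card (R := ℚ) (symFun m)
  rw [Sym2.card, Fintype.card_fin] at h
  exact h

/-- Frankl's bound: a skew system of pairs and `r`-sets in a set with `k` elements has at most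
`C(k - r + 2, 2)` members. -/
theorem skew_bound {T ι : Type*} [Fintype T] [DecidableEq T] [Fintype ι] [LinearOrder ι]
    (R : ι → Finset T) (x y : ι → T) (r : ℕ) (hR : ∀ i, (R i).card = r)
    (hx : ∀ i, x i ∈ R i) (hy : ∀ i, y i ∈ R i)
    (h : ∀ j i, j < i → ¬ (x i ∈ R j ∧ y i ∈ R j)) :
    Fintype.card ι ≤ (Fintype.card T - r + 2).choose 2 := by
  classical
  set t : T → ℚ := fun s => ((Fintype.equivFin T s : ℕ) : ℚ) with ht
  have ht_inj : Function.Injective t := by
    intro a b hab
    have : ((Fintype.equivFin T a : ℕ) : ℚ) = ((Fintype.equivFin T b : ℕ) : ℚ) := hab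
    have h2 : (Fintype.equivFin T a : ℕ) = (Fintype.equivFin T b : ℕ) := by exact_mod_cast this
    exact (Fintype.equivFin T).injective (Fin.ext h2)
  set f : ι → Polynomial ℚ := fun i => ∏ s ∈ (R i)ᶜ, (Polynomial.X - Polynomial.C (t s)) with hf
  have hdeg : ∀ i, (f i).natDegree ≤ Fintype.card T - r := by
    intro i
    rw [hf]
    simp only
    rw [Polynomial.natDegree_finsetProd_X_sub_C_eq_card, Finset.card_compl, hR]
  have heval : ∀ i s, (f i).eval (t s) = 0 ↔ s ∉ R i := by
    intro i s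
    rw [hf]
    simp only [Polynomial.eval_prod, Polynomial.eval_sub, Polynomial.eval_X, Polynomial.eval_C,
      Finset.prod_eq_zero_iff, Finset.mem_compl]
    constructor
    · rintro ⟨a, ha, hsa⟩
      have : t s = t a := sub_eq_zero.1 hsa
      rw [ht_inj this]
      exact ha
    · intro hs
      exact ⟨s, hs, sub_self _⟩
  set g : ι → (ℚ × ℚ → ℚ) := fun i z => (f i).eval z.1 * (f i).eval z.2 with hg
  have hli : LinearIndependent ℚ g := by
    rw [Fintype.linearIndependent_iff]
    intro a ha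
    by_contra hne
    push Not at hne
    obtain ⟨i₀, hi₀⟩ := hne
    obtain ⟨i, hi, hmax⟩ := Finset.exists_max_image (Finset.univ.filter fun i => a i ≠ 0)
      id ⟨i₀, by simp [hi₀]⟩
    rw [Finset.mem_filter] at hi
    have h1 : (∑ j, a j • g j) (t (x i), t (y i)) = 0 := by rw [ha]; rfl
    rw [Finset.sum_apply] at h1
    rw [Finset.sum_eq_single i] at h1
    · simp only [Pi.smul_apply, smul_eq_mul, hg] at h1
      rcases mul_eq_zero.1 h1 with h2 | h2
      · exact hi.2 h2
      · rcases mul_eq_zero.1 h2 with h3 | h3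
        · exact (heval i (x i)).1 h3 (hx i)
        · exact (heval i (y i)).1 h3 (hy i)
    · intro j _ hji
      simp only [Pi.smul_apply, smul_eq_mul, hg]
      by_cases hj : a j = 0
      · rw [hj, zero_mul]
      · have hlt : j < i := lt_of_le_of_ne (hmax j (by simp [hj])) hji
        have h4 := h j i hlt
        by_cases h5 : x i ∈ R j
        · have h6 : y i ∉ R j := fun h6 => h4 ⟨h5, h6⟩
          rw [(heval j (y i)).2 h6, mul_zero, mul_zero]
        · rw [(heval j (x i)).2 h5, zero_mul, mul_zero]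
    · intro h7
      exact absurd (Finset.mem_univ i) h7
  have hmem : ∀ i, g i ∈ Submodule.span ℚ (Set.range (symFun (Fintype.card T - r))) :=
    fun i => mem_span_symFun (f i) (hdeg i)
  have : Module.Finite ℚ (Submodule.span ℚ (Set.range (symFun (Fintype.card T - r)))) :=
    Module.Finite.span_of_finite ℚ (Set.finite_range _)
  have hli' : LinearIndependent ℚ
      (fun i => (⟨g i, hmem i⟩ : Submodule.span ℚ (Set.range (symFun (Fintype.card T - r))))) := by
    refine LinearIndependent.of_comp (Submodule.subtype _) ?_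
    exact hli
  exact (hli'.fintype_card_le_finrank).trans (finrank_span_symFun _)

end Pool.Agent.Rad
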